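import Pool.Agent.TFJ.Stmts

/-! Row TWA of squad TFJ (MP_bed68a_al): the subring of the elements with coordinates in `R`. -/

set_option autoImplicit false

namespace Pool.Agent.TFJ.H3

open Pool.Agent.TFJ
open scoped BigOperators

section

variable {F G S : Type} [Field F] [Group G] [Ring S] [Algebra F S]

/-- the elements with coordinates in `R` -/
def coR (u : G → S) (R : Subring F) : AddSubgroup S where
  carrier := {x | ∃ a : G →₀ F, (∀ h, a h ∈ R) ∧ x = a.sum fun h y => y • u h}
  zero_mem' := ⟨0, fun h => R.zero_mem, by simp⟩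
  add_mem' := by
    rintro _ _ ⟨a, ha, rfl⟩ ⟨b, hb, rfl⟩
    refine ⟨a + b, fun h => ?_, ?_⟩
    · rw [Finsupp.add_apply]
      exact R.add_mem (ha h) (hb h)
    · rw [Finsupp.sum_add_index']
      · intro h
        exact zero_smul _ _
      · intro h y z
        exact add_smul _ _ _
  neg_mem' := by
    rintro _ ⟨a, ha, rfl⟩
    refine ⟨-a, fun h => ?_, ?_⟩
    · rw [Finsupp.neg_apply]
      exact R.neg_mem (ha h)
    · rw [Finsupp.sum_neg_index]
      · unfold Finsupp.sum
        rw [← Finset.sum_neg_distrib]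
        exact Finset.sum_congr rfl fun h _ => (neg_smul _ _).symm
      · intro h
        exact zero_smul _ _

theorem single_mem (u : G → S) (R : Subring F) (g : G) (y : F) (hy : y ∈ R) :
    y • u g ∈ coR u R := by
  classical
  refine ⟨Finsupp.single g y, fun h => ?_, ?_⟩
  · rw [Finsupp.single_apply]
    split_ifs
    · exact hy
    · exact R.zero_mem
  · rw [Finsupp.sum_single_index]
    exact zero_smul _ _

theorem mul_single {α : G → G → Fˣ} {u : G → S} (hT : Twisted α u) (g h : G) (y z : F) :
    (y • u g) * (z • u h) = (y * z * (α g h : F)) • u (g * h) := by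
  rw [smul_mul_smul_comm, hT.mul, smul_smul]

theorem coR_mul {α : G → G → Fˣ} {u : G → S} (hT : Twisted α u) (R : Subring F)
    (hR : ∀ g h, (α g h : F) ∈ R) {x y : S} (hx : x ∈ coR u R) (hy : y ∈ coR u R) :
    x * y ∈ coR u R := by
  obtain ⟨a, ha, rfl⟩ := hx
  obtain ⟨b, hb, rfl⟩ := hy
  unfold Finsupp.sum
  rw [Finset.sum_mul_sum]
  refine (coR u R).sum_mem fun g _ => (coR u R).sum_mem fun h _ => ?_
  rw [mul_single hT]
  exact single_mem u R _ _ (R.mul_mem (R.mul_mem (ha g) (hb h)) (hR g h))

/-- the subring -/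
def sub {α : G → G → Fˣ} {u : G → S} (hT : Twisted α u) (R : Subring F)
    (hR : ∀ g h, (α g h : F) ∈ R) : Subring S where
  carrier := {x | ∃ a : G →₀ F, (∀ h, a h ∈ R) ∧ x = a.sum fun h y => y • u h}
  zero_mem' := (coR u R).zero_mem
  add_mem' := fun hx hy => (coR u R).add_mem hx hy
  neg_mem' := fun hx => (coR u R).neg_mem hx
  mul_mem' := fun hx hy => coR_mul hT R hR hx hy
  one_mem' := by
    have h := single_mem u R 1 1 R.one_mem
    rw [one_smul, hT.one] at h
    exact h

/-- the grading -/
def gr {α : G → G → Fˣ} {u : G → S} (hT : Twisted α u) (R : Subring F)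
    (hR : ∀ g h, (α g h : F) ∈ R) (g : G) : AddSubgroup (sub hT R hR) where
  carrier := {x | ∃ y ∈ R, (x : S) = y • u g}
  zero_mem' := ⟨0, R.zero_mem, by simp⟩
  add_mem' := by
    rintro x y ⟨a, ha, hx⟩ ⟨b, hb, hy⟩
    refine ⟨a + b, R.add_mem ha hb, ?_⟩
    rw [Subring.coe_add, hx, hy, add_smul]
  neg_mem' := by
    rintro x ⟨a, ha, hx⟩
    refine ⟨-a, R.neg_mem ha, ?_⟩
    rw [Subring.coe_neg, hx, neg_smul]

end

theorem twa : TwaStmt := by
  classical
  intro F G S _ _ _ _ α u hT R hR
  have hu0 : ∀ g, u g ≠ 0 := fun g => hT.indep.ne_zero g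
  refine ⟨sub hT R hR, gr hT R hR, ⟨?_, ?_, ?_, ?_⟩, fun x => Iff.rfl, fun g x => Iff.rfl⟩
  · exact ⟨1, R.one_mem, by rw [one_smul, hT.one]; rfl⟩
  · rintro g h x y ⟨a, ha, hx⟩ ⟨b, hb, hy⟩
    refine ⟨a * b * (α g h : F), R.mul_mem (R.mul_mem ha hb) (hR g h), ?_⟩
    rw [Subring.coe_mul, hx, hy, mul_single hT]
  · rintro ⟨x, a, ha, hx⟩
    obtain ⟨c, hc⟩ : ∃ c : G →₀ sub hT R hR, ∀ g, ((c g : sub hT R hR) : S) = a g • u g := by
      refine ⟨Finsupp.onFinset a.support (fun g => ⟨a g • u g, single_mem u R g _ (ha g)⟩) ?_,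
        fun g => rfl⟩
      intro g hg
      rw [Finsupp.mem_support_iff]
      intro h0
      apply hg
      apply Subtype.ext
      show a g • u g = 0
      rw [h0, zero_smul]
    refine ⟨c, fun g => ⟨a g, ha g, hc g⟩, ?_⟩
    apply Subtype.ext
    show (((c.sum fun _ y => y) : sub hT R hR) : S) = x
    rw [hx]
    have h1 : (c.sum fun _ y => y) = ∑ g ∈ a.support, c g := by
      apply Finsupp.sum_of_support_subset
      · intro g hg
        rw [Finsupp.mem_support_iff] at hg ⊢
        intro h0
        apply hg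
        apply Subtype.ext
        rw [hc, h0, zero_smul]
        rfl
      · intro g _
        rfl
    rw [h1]
    unfold Finsupp.sum
    rw [← Subring.subtype_apply, map_sum]
    refine Finset.sum_congr rfl fun g _ => ?_
    rw [Subring.subtype_apply, hc]
  · intro c hc h0
    choose y hyR hy using hc
    have hy0 : ∀ g, g ∉ c.support → y g = 0 := by
      intro g hg
      rw [Finsupp.notMem_support_iff] at hg
      have h := hy g
      rw [hg] at h
      have h2 : y g • u g = 0 := h.symm
      rcases smul_eq_zero.1 h2 with h3 | h3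
      · exact h3
      · exact absurd h3 (hu0 g)
    obtain ⟨a, ha⟩ : ∃ a : G →₀ F, ∀ g, a g = y g := by
      refine ⟨Finsupp.onFinset c.support y ?_, fun g => rfl⟩
      intro g hg
      by_contra hn
      exact hg (hy0 g hn)
    have h1 : Finsupp.linearCombination F u a = 0 := by
      rw [Finsupp.linearCombination_apply]
      have h2 : (a.sum fun g z => z • u g) = ∑ g ∈ c.support, a g • u g := by
        apply Finsupp.sum_of_support_subset
        · intro g hg
          by_contra hn
          rw [Finsupp.mem_support_iff, ha] at hg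
          exact hg (hy0 g hn)
        · intro g _
          exact zero_smul _ _
      rw [h2]
      have h3 : (((c.sum fun _ z => z) : sub hT R hR) : S) = 0 := by
        rw [h0]
        rfl
      unfold Finsupp.sum at h3
      rw [← Subring.subtype_apply, map_sum] at h3
      rw [← h3]
      refine Finset.sum_congr rfl fun g _ => ?_
      rw [Subring.subtype_apply, hy, ha]
    have h4 := (linearIndependent_iff.1 hT.indep) a h1
    ext g
    have h5 : y g = 0 := by
      rw [← ha, h4]
      rfl
    rw [hy, h5, zero_smul]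
    rfl

end Pool.Agent.TFJ.H3
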